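import Mathlib

namespace Pool.Agent.Results.MP_18d2fb_an.NeumannDiverges

open Filter Topology BoundedContinuousFunction

universe u

/-! ### Scalars and weights -/

/-- The exponents of the weights: `(n - k)|n - k| - n|n|`. -/
def expo (n k : ℤ) : ℤ := (n - k) * |n - k| - n * |n|

theorem expo_le (n k : ℤ) (hk : 0 ≤ k) : 2 * expo n k ≤ -k ^ 2 := by
  unfold expo
  rcases le_total 0 n with hn | hn
  · rcases le_total 0 (n - k) with hnk | hnk
    · rw [abs_of_nonneg hn, abs_of_nonneg hnk]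
      nlinarith
    · rw [abs_of_nonneg hn, abs_of_nonpos hnk]
      nlinarith [sq_nonneg (2 * n - k)]
  · have hnk : n - k ≤ 0 := by omega
    rw [abs_of_nonpos hn, abs_of_nonpos hnk]
    nlinarith [mul_nonneg hk (neg_nonneg.mpr hn)]

theorem expo_add (n k : ℤ) : expo n 1 + expo (n - 1) k = expo n (k + 1) := by
  unfold expo
  rw [show n - 1 - k = n - (k + 1) by ring]
  ring

/-- The weights. -/
noncomputable def c (n k : ℤ) : ℝ := (4 : ℝ) ^ expo n k

theorem c_pos (n k : ℤ) : 0 < c n k := by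
  unfold c; positivity

theorem c_add (n k : ℤ) : c n 1 * c (n - 1) k = c n (k + 1) := by
  unfold c
  rw [← expo_add, zpow_add₀ (by norm_num)]

theorem c_le (n : ℤ) (k : ℕ) : c n k ≤ ((2 : ℝ) ^ (k ^ 2))⁻¹ := by
  unfold c
  have h1 : (4 : ℝ) ^ expo n k = (2 : ℝ) ^ (2 * expo n k) := by
    rw [zpow_mul]; norm_num
  rw [h1, ← zpow_natCast, ← zpow_neg]
  apply zpow_le_zpow_right₀ (by norm_num)
  have := expo_le n k (by positivity)
  push_cast
  linarith

section Weights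

variable (𝕜 : Type) [RCLike 𝕜]

/-- The Banach space of bounded `𝕜`-valued functions on `ℤ`. -/
abbrev F : Type := ℤ →ᵇ 𝕜

theorem shift_bound (f : F 𝕜) (n : ℤ) : ‖(c n 1 : 𝕜) * f (n - 1)‖ ≤ ‖f‖ := by
  rw [norm_mul, RCLike.norm_ofReal, abs_of_pos (c_pos n 1)]
  have h1 : c n 1 ≤ 1 := by
    have := c_le n 1
    norm_num at this
    linarith
  have h2 := f.norm_coe_le_norm (n - 1)
  nlinarith [c_pos n 1, norm_nonneg (f (n - 1))]

/-- The weighted shift, as a function. -/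
noncomputable def Vfun (f : F 𝕜) : F 𝕜 :=
  BoundedContinuousFunction.ofNormedAddCommGroupDiscrete
    (fun n => (c n 1 : 𝕜) * f (n - 1)) ‖f‖ (shift_bound 𝕜 f)

theorem Vfun_apply (f : F 𝕜) (n : ℤ) : Vfun 𝕜 f n = (c n 1 : 𝕜) * f (n - 1) := rfl

/-- The weighted shift. -/
noncomputable def V : F 𝕜 →L[𝕜] F 𝕜 :=
  LinearMap.mkContinuous
    { toFun := Vfun 𝕜
      map_add' := by
        intro f g
        ext n
        simp only [Vfun_apply, BoundedContinuousFunction.coe_add, Pi.add_apply, mul_add]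
      map_smul' := by
        intro a f
        ext n
        simp only [Vfun_apply, BoundedContinuousFunction.coe_smul, RingHom.id_apply, smul_eq_mul,
          mul_left_comm] } 1 (by
    intro f
    rw [one_mul]
    exact (BoundedContinuousFunction.norm_le (norm_nonneg f)).mpr (shift_bound 𝕜 f))

theorem V_apply (f : F 𝕜) (n : ℤ) : V 𝕜 f n = (c n 1 : 𝕜) * f (n - 1) := rfl

theorem V_pow_apply (k : ℕ) : ∀ (f : F 𝕜) (n : ℤ), (V 𝕜 ^ k) f n = (c n k : 𝕜) * f (n - k) := by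
  induction k with
  | zero =>
    intro f n
    simp [c, expo]
  | succ k ih =>
    intro f n
    rw [pow_succ']
    change V 𝕜 ((V 𝕜 ^ k) f) n = _
    rw [V_apply, ih, ← mul_assoc, ← RCLike.ofReal_mul, c_add]
    push_cast
    rw [show n - 1 - (k : ℤ) = n - (k + 1) by ring]

theorem norm_V_pow_apply_le (k : ℕ) (f : F 𝕜) : ‖(V 𝕜 ^ k) f‖ ≤ ((2 : ℝ) ^ (k ^ 2))⁻¹ * ‖f‖ := by
  apply (BoundedContinuousFunction.norm_le (by positivity)).mpr
  intro n
  rw [V_pow_apply, norm_mul, RCLike.norm_ofReal, abs_of_pos (c_pos n k)]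
  exact mul_le_mul (c_le n k) (f.norm_coe_le_norm _) (norm_nonneg _) (by positivity)

theorem norm_V_pow_le (k : ℕ) : ‖V 𝕜 ^ k‖ ≤ ((2 : ℝ) ^ (k ^ 2))⁻¹ :=
  ContinuousLinearMap.opNorm_le_bound _ (by positivity) (norm_V_pow_apply_le 𝕜 k)

end Weights

/-! ### The Frechet space -/

section Abstract

variable {𝕜 : Type} [RCLike 𝕜] {B : Type} [NormedAddCommGroup B] [NormedSpace 𝕜 B]

theorem isUnit_one_sub [CompleteSpace B] (V : B →L[𝕜] B)
    (hV : ∀ k : ℕ, ‖V ^ k‖ ≤ ((2 : ℝ) ^ (k ^ 2))⁻¹) (a : 𝕜) : IsUnit (1 - a • V) := by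
  obtain ⟨k, hk⟩ := pow_unbounded_of_one_lt ‖a‖ (by norm_num : (1 : ℝ) < 2)
  have h1 : ‖(a • V) ^ (k + 1)‖ < 1 := by
    rw [smul_pow, norm_smul, norm_pow]
    have h2 := hV (k + 1)
    have h3 : ‖a‖ ^ (k + 1) < (2 : ℝ) ^ ((k + 1) ^ 2) := by
      calc ‖a‖ ^ (k + 1) < ((2 : ℝ) ^ k) ^ (k + 1) :=
            pow_lt_pow_left₀ hk (norm_nonneg _) (by omega)
        _ = (2 : ℝ) ^ (k * (k + 1)) := by rw [← pow_mul]
        _ ≤ (2 : ℝ) ^ ((k + 1) ^ 2) := pow_le_pow_right₀ (by norm_num) (by nlinarith)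
    calc ‖a‖ ^ (k + 1) * ‖V ^ (k + 1)‖ ≤ ‖a‖ ^ (k + 1) * ((2 : ℝ) ^ ((k + 1) ^ 2))⁻¹ :=
          mul_le_mul_of_nonneg_left h2 (by positivity)
      _ < 1 := by
          rw [mul_inv_lt_iff₀ (by positivity), one_mul]
          exact h3
  have h2 : IsUnit (1 - (a • V) ^ (k + 1)) := (Units.oneSub _ h1).isUnit
  have h3 : Commute (1 - a • V) (∑ i ∈ Finset.range (k + 1), (a • V) ^ i) := by
    change _ * _ = _ * _
    rw [mul_neg_geom_sum, geom_sum_mul_neg]
  rw [← mul_neg_geom_sum] at h2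
  exact (h3.isUnit_mul_iff.mp h2).1

/-- The space of backward orbits of `V`: the projective limit of `B ← B ← B ← ⋯`. -/
def orbits (V : B →L[𝕜] B) : Submodule 𝕜 (ℕ → B) where
  carrier := {f | ∀ N, f N = V (f (N + 1))}
  add_mem' := by
    intro f g hf hg N
    rw [Pi.add_apply, Pi.add_apply, map_add, hf N, hg N]
  zero_mem' := by
    intro N
    simp
  smul_mem' := by
    intro a f hf N
    rw [Pi.smul_apply, Pi.smul_apply, map_smul, hf N]

theorem mem_orbits {V : B →L[𝕜] B} {f : ℕ → B} : f ∈ orbits V ↔ ∀ N, f N = V (f (N + 1)) := Iff.rfl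

theorem isClosed_orbits (V : B →L[𝕜] B) : IsClosed (orbits V : Set (ℕ → B)) := by
  have : (orbits V : Set (ℕ → B)) = ⋂ N : ℕ, {f : ℕ → B | f N = V (f (N + 1))} := by
    ext f
    simp [mem_orbits]
  rw [this]
  refine isClosed_iInter fun N => isClosed_eq (continuous_apply N) ?_
  exact V.continuous.comp (continuous_apply (N + 1))

/-- The seminorms. -/
noncomputable def sn (V : B →L[𝕜] B) (N : ℕ) : Seminorm 𝕜 (orbits V) :=
  (normSeminorm 𝕜 B).comp ((LinearMap.proj N).comp (orbits V).subtype)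

theorem sn_apply (V : B →L[𝕜] B) (N : ℕ) (f : orbits V) : sn V N f = ‖(f : ℕ → B) N‖ := rfl

theorem withSeminorms_sn (V : B →L[𝕜] B) : WithSeminorms (sn V) := by
  rw [SeminormFamily.withSeminorms_iff_nhds_eq_iInf, nhds_subtype, nhds_pi, Filter.pi,
    Filter.comap_iInf]
  refine iInf_congr fun i => ?_
  rw [Filter.comap_comap]
  change Filter.comap (fun f : orbits V => (f : ℕ → B) i) (𝓝 (0 : B)) = _
  rw [← comap_norm_nhds_zero (E := B), Filter.comap_comap]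
  rfl

theorem monotone_sn (V : B →L[𝕜] B) (hV : ‖V‖ ≤ 1) : Monotone (sn V) := by
  refine monotone_nat_of_le_succ fun N f => ?_
  rw [sn_apply, sn_apply, f.2 N]
  calc ‖V ((f : ℕ → B) (N + 1))‖ ≤ ‖V‖ * ‖(f : ℕ → B) (N + 1)‖ := V.le_opNorm _
    _ ≤ 1 * ‖(f : ℕ → B) (N + 1)‖ := mul_le_mul_of_nonneg_right hV (norm_nonneg _)
    _ = _ := one_mul _

theorem continuous_coord (V : B →L[𝕜] B) (N : ℕ) :
    Continuous fun f : orbits V => (f : ℕ → B) N :=
  (continuous_apply N : Continuous fun g : ℕ → B => g N).comp continuous_subtype_val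

instance (V : B →L[𝕜] B) : IsUniformAddGroup (orbits V) :=
  inferInstanceAs (IsUniformAddGroup (orbits V).toAddSubgroup)

/-- The shift on backward orbits, the inverse of `V`. -/
def U (V : B →L[𝕜] B) : orbits V →L[𝕜] orbits V where
  toFun f := ⟨fun N => (f : ℕ → B) (N + 1), fun N => f.2 (N + 1)⟩
  map_add' _ _ := rfl
  map_smul' _ _ := rfl
  cont := Continuous.subtype_mk (continuous_pi fun N => continuous_coord V (N + 1)) _

theorem U_apply (V : B →L[𝕜] B) (f : orbits V) (N : ℕ) :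
    (U V f : ℕ → B) N = (f : ℕ → B) (N + 1) := rfl

theorem U_iterate (V : B →L[𝕜] B) (k : ℕ) : ∀ (f : orbits V) (N : ℕ),
    (((U V)^[k] f : orbits V) : ℕ → B) N = (f : ℕ → B) (N + k) := by
  induction k with
  | zero => intro f N; rfl
  | succ k ih =>
    intro f N
    rw [Function.iterate_succ_apply, ih, U_apply]
    congr 1

theorem orbit_eq (V : B →L[𝕜] B) (f : orbits V) (N k : ℕ) :
    (f : ℕ → B) N = (V ^ k) ((f : ℕ → B) (N + k)) := by
  induction k with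
  | zero => simp
  | succ k ih =>
    rw [ih, f.2 (N + k), pow_succ]
    rfl

theorem bijective_sub [CompleteSpace B] (V : B →L[𝕜] B)
    (hV : ∀ k : ℕ, ‖V ^ k‖ ≤ ((2 : ℝ) ^ (k ^ 2))⁻¹) (a : 𝕜) :
    Function.Bijective fun x : orbits V => x - a • U V x := by
  by_cases ha : a = 0
  · subst ha
    simp only [zero_smul, sub_zero]
    exact Function.bijective_id
  · obtain ⟨S, hS⟩ := isUnit_one_sub V hV a⁻¹
    have hS1 : ∀ v : B, (S⁻¹ : (B →L[𝕜] B)ˣ).1 v - a⁻¹ • V ((S⁻¹ : (B →L[𝕜] B)ˣ).1 v) = v := by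
      intro v
      have h1 : (S : B →L[𝕜] B) * (S⁻¹ : (B →L[𝕜] B)ˣ).1 = 1 := S.mul_inv
      have h2 := congrArg (fun T : B →L[𝕜] B => T v) h1
      rw [hS] at h2
      exact h2
    have hS2 : ∀ v : B, (S⁻¹ : (B →L[𝕜] B)ˣ).1 (v - a⁻¹ • V v) = v := by
      intro v
      have h1 : (S⁻¹ : (B →L[𝕜] B)ˣ).1 * (S : B →L[𝕜] B) = 1 := S.inv_mul
      have h2 := congrArg (fun T : B →L[𝕜] B => T v) h1
      rw [hS] at h2
      exact h2
    set R : B →L[𝕜] B := (S⁻¹ : (B →L[𝕜] B)ˣ).1 with hR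
    have hRV : ∀ v : B, R (V v) = V (R v) := by
      intro v
      have h1 : R (V (R v - a⁻¹ • V (R v))) = V (R v) := by
        rw [map_sub, map_smul]
        exact hS2 (V (R v))
      rw [hS1] at h1
      exact h1
    constructor
    · intro f g hfg
      have h1 : ∀ N, (f : ℕ → B) N - (g : ℕ → B) N =
          a • ((f : ℕ → B) (N + 1) - (g : ℕ → B) (N + 1)) := by
        intro N
        have h2 := congrArg (fun x : orbits V => (x : ℕ → B) N) hfg
        change (f : ℕ → B) N - a • (f : ℕ → B) (N + 1) =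
          (g : ℕ → B) N - a • (g : ℕ → B) (N + 1) at h2
        rw [smul_sub]
        have h3 : (f : ℕ → B) N =
            (g : ℕ → B) N - a • (g : ℕ → B) (N + 1) + a • (f : ℕ → B) (N + 1) := by
          rw [← h2]; abel
        rw [h3]; abel
      have h3 : ∀ N, (f : ℕ → B) (N + 1) - (g : ℕ → B) (N + 1) = 0 := by
        intro N
        set d := (f : ℕ → B) (N + 1) - (g : ℕ → B) (N + 1) with hd
        have h4 : V d = a • d := by
          rw [hd, map_sub, ← f.2 N, ← g.2 N]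
          exact h1 N
        have h5 := hS2 d
        rw [h4, inv_smul_smul₀ ha, sub_self, map_zero] at h5
        exact h5.symm
      apply Subtype.ext
      funext N
      have h4 := h1 N
      rw [h3 N, smul_zero] at h4
      exact sub_eq_zero.mp h4
    · intro g
      refine ⟨⟨fun N => -(a⁻¹ • V (R ((g : ℕ → B) N))), ?_⟩, ?_⟩
      · intro N
        change -(a⁻¹ • V (R ((g : ℕ → B) N))) = V (-(a⁻¹ • V (R ((g : ℕ → B) (N + 1)))))
        rw [map_neg, map_smul, g.2 N, hRV]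
      · apply Subtype.ext
        funext N
        change -(a⁻¹ • V (R ((g : ℕ → B) N))) - a • (-(a⁻¹ • V (R ((g : ℕ → B) (N + 1))))) =
          (g : ℕ → B) N
        have e : V (R ((g : ℕ → B) (N + 1))) = R ((g : ℕ → B) N) := by rw [← hRV, ← g.2 N]
        rw [smul_neg, smul_inv_smul₀ ha, e, sub_neg_eq_add, neg_add_eq_sub]
        exact hS1 _

theorem diverges (V : B →L[𝕜] B) (hV : ∀ k : ℕ, ‖V ^ k‖ ≤ ((2 : ℝ) ^ (k ^ 2))⁻¹) (a : 𝕜)
    (ha : a ≠ 0) (x : orbits V) (hx : x ≠ 0) :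
    ¬ ∃ s, Tendsto (fun n => ∑ k ∈ Finset.range n, a ^ k • (U V)^[k] x) atTop (𝓝 s) := by
  rintro ⟨s, hs⟩
  obtain ⟨N, hN⟩ : ∃ N, (x : ℕ → B) N ≠ 0 := by
    by_contra h
    push Not at h
    exact hx (Subtype.ext (funext h))
  have h1 : Tendsto (fun n => a ^ n • (U V)^[n] x) atTop (𝓝 (s - s)) := by
    have := (hs.comp (tendsto_add_atTop_nat 1)).sub hs
    refine this.congr fun n => ?_
    simp only [Function.comp_apply]
    rw [Finset.sum_range_succ, add_sub_cancel_left]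
  rw [sub_self] at h1
  have h2 : Tendsto (fun n => ‖a ^ n • (x : ℕ → B) (N + n)‖) atTop (𝓝 0) := by
    have h3 : Continuous fun f : orbits V => ‖(f : ℕ → B) N‖ := (continuous_coord V N).norm
    have h4 := (h3.tendsto 0).comp h1
    have h5 : ‖((0 : orbits V) : ℕ → B) N‖ = 0 := by simp
    rw [h5] at h4
    refine h4.congr fun n => ?_
    simp only [Function.comp_apply]
    rw [← U_iterate]
    rfl
  obtain ⟨m, hm⟩ := pow_unbounded_of_one_lt (‖a‖⁻¹) (by norm_num : (1 : ℝ) < 2)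
  have h3 : ∀ᶠ n in atTop, ‖(x : ℕ → B) N‖ ≤ ‖a ^ n • (x : ℕ → B) (N + n)‖ := by
    filter_upwards [eventually_ge_atTop m] with n hn
    have hapos : 0 < ‖a‖ := norm_pos_iff.mpr ha
    have h4 : 1 ≤ ‖a‖ * 2 ^ n := by
      have h5 : ‖a‖⁻¹ ≤ 2 ^ n := hm.le.trans (pow_le_pow_right₀ (by norm_num) hn)
      calc (1 : ℝ) = ‖a‖ * ‖a‖⁻¹ := (mul_inv_cancel₀ hapos.ne').symm
        _ ≤ ‖a‖ * 2 ^ n := mul_le_mul_of_nonneg_left h5 hapos.le
    have h5 : ‖(x : ℕ → B) N‖ ≤ ((2 : ℝ) ^ (n ^ 2))⁻¹ * ‖(x : ℕ → B) (N + n)‖ := by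
      calc ‖(x : ℕ → B) N‖ = ‖(V ^ n) ((x : ℕ → B) (N + n))‖ := by rw [← orbit_eq]
        _ ≤ ‖V ^ n‖ * ‖(x : ℕ → B) (N + n)‖ := (V ^ n).le_opNorm _
        _ ≤ _ := mul_le_mul_of_nonneg_right (hV n) (norm_nonneg _)
    have h6 : (2 : ℝ) ^ (n ^ 2) * ‖(x : ℕ → B) N‖ ≤ ‖(x : ℕ → B) (N + n)‖ := by
      rw [inv_mul_eq_div, le_div_iff₀ (by positivity)] at h5
      linarith
    rw [norm_smul, norm_pow]
    calc ‖(x : ℕ → B) N‖ = 1 ^ n * ‖(x : ℕ → B) N‖ := by rw [one_pow, one_mul]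
      _ ≤ (‖a‖ * 2 ^ n) ^ n * ‖(x : ℕ → B) N‖ :=
        mul_le_mul_of_nonneg_right (pow_le_pow_left₀ (by norm_num) h4 n) (norm_nonneg _)
      _ = ‖a‖ ^ n * ((2 : ℝ) ^ (n ^ 2) * ‖(x : ℕ → B) N‖) := by
        rw [mul_pow, ← pow_mul, pow_two, mul_assoc]
      _ ≤ ‖a‖ ^ n * ‖(x : ℕ → B) (N + n)‖ := mul_le_mul_of_nonneg_left h6 (by positivity)
  have h4 := ge_of_tendsto h2 h3
  have h5 : 0 < ‖(x : ℕ → B) N‖ := norm_pos_iff.mpr hN
  exact absurd h4 (not_le.mpr h5)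

end Abstract

/-- A nonzero backward orbit of the weighted shift. -/
noncomputable def orb (𝕜 : Type) [RCLike 𝕜] (N : ℕ) : F 𝕜 :=
  BoundedContinuousFunction.ofNormedAddCommGroupDiscrete
    (fun n : ℤ => if n = -(N : ℤ) then (((4 : ℝ) ^ ((N : ℤ) ^ 2) : ℝ) : 𝕜) else 0)
    ((4 : ℝ) ^ ((N : ℤ) ^ 2)) (by
      intro n
      split_ifs
      · rw [RCLike.norm_ofReal, abs_of_pos (by positivity)]
      · rw [norm_zero]; positivity)

theorem orb_mem (𝕜 : Type) [RCLike 𝕜] : orb 𝕜 ∈ orbits (V 𝕜) := by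
  intro N
  ext n
  rw [V_apply]
  change (if n = -(N : ℤ) then (((4 : ℝ) ^ ((N : ℤ) ^ 2) : ℝ) : 𝕜) else 0) = (c n 1 : 𝕜) *
    (if n - 1 = -((N + 1 : ℕ) : ℤ) then (((4 : ℝ) ^ (((N + 1 : ℕ) : ℤ) ^ 2) : ℝ) : 𝕜) else 0)
  by_cases hn : n = -(N : ℤ)
  · subst hn
    rw [if_pos rfl, if_pos (by push_cast; ring), ← RCLike.ofReal_mul]
    congr 1
    unfold c expo
    rw [← zpow_add₀ (by norm_num)]
    congr 1
    rw [abs_of_nonpos (by omega), abs_of_nonpos (by omega)]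
    push_cast
    ring
  · rw [if_neg hn, if_neg (by push_cast; omega), mul_zero]

/-- For `𝕜 = ℝ` and for `𝕜 = ℂ` there are a Frechet space `E` over `𝕜` and a continuous linear
operator `U` on it such that `1 - a U` is bijective for every scalar `a`, while for every `a ≠ 0`
and every `x ≠ 0` the Neumann series `∑ a ^ k U ^ k x` diverges. -/
theorem result (𝕜 : Type) [RCLike 𝕜] :
    ∃ (E : Type) (_ : AddCommGroup E) (_ : Module 𝕜 E) (_ : UniformSpace E)
      (_ : IsUniformAddGroup E) (p : ℕ → Seminorm 𝕜 E) (U : E →L[𝕜] E),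
      WithSeminorms p ∧ Monotone p ∧ T2Space E ∧ CompleteSpace E ∧ Nontrivial E ∧
      (∀ a : 𝕜, Function.Bijective fun x => x - a • U x) ∧
      ∀ a : 𝕜, a ≠ 0 → ∀ x : E, x ≠ 0 →
        ¬ ∃ s, Tendsto (fun n => ∑ k ∈ Finset.range n, a ^ k • U^[k] x) atTop (𝓝 s) := by
  refine ⟨orbits (V 𝕜), inferInstance, inferInstance, inferInstance, inferInstance, sn (V 𝕜),
    U (V 𝕜), withSeminorms_sn _, monotone_sn _ ?_, inferInstance, ?_, ?_,
    bijective_sub _ (norm_V_pow_le 𝕜), fun a ha x hx => diverges _ (norm_V_pow_le 𝕜) a ha x hx⟩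
  · have := norm_V_pow_le 𝕜 1
    rw [pow_one] at this
    norm_num at this
    linarith
  · exact (isClosed_orbits (V 𝕜)).completeSpace_coe
  · refine ⟨⟨⟨orb 𝕜, orb_mem 𝕜⟩, 0, ?_⟩⟩
    intro h
    have h1 := congrArg (fun x : orbits (V 𝕜) => (x : ℕ → F 𝕜) 0 0) h
    change (if (0 : ℤ) = -((0 : ℕ) : ℤ) then (((4 : ℝ) ^ (((0 : ℕ) : ℤ) ^ 2) : ℝ) : 𝕜) else 0) = 0
      at h1
    norm_num at h1

end Pool.Agent.Results.MP_18d2fb_an.NeumannDiverges
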